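import Pool.Agent.P.MP_d0ec72_al.Inst

/-! Infinite-dimensional residually nilpotent Lie algebras with the maximal condition on
subalgebras in characteristic two. -/

namespace Pool.Agent.Old.MP_d0ec72_al.CharTwo

universe u

theorem result :
    (∃ (k : Type) (_ : Field k) (_ : CharP k 2), ¬ Module.Finite (frobenius k 2).fieldRange k) ∧
    ∀ (k : Type u) [Field k] [CharP k 2], ¬ Module.Finite (frobenius k 2).fieldRange k →
      ∃ (L : Type u) (_ : LieRing L) (_ : LieAlgebra k L), ¬ Module.Finite k L ∧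
        (∀ c : ℕ →o LieSubalgebra k L, ∃ n, ∀ m, n ≤ m → c m = c n) ∧
        ⨅ n, LieModule.lowerCentralSeries k L L n = ⊥ :=
  ⟨Pool.Agent.P.MP_d0ec72_al.exists_field, Pool.Agent.P.MP_d0ec72_al.main_field⟩

end Pool.Agent.Old.MP_d0ec72_al.CharTwo
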